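import Mathlib
import Pool.Agent.X158.RainbowPath

set_option autoImplicit false

/-!
# Alternating point-line orderings with separation

The deficiency-one hull condition implies an alternating ordering in which every line (but the last
one) separates its two neighbouring points.
-/

namespace Pool.Agent.Results.MP_719c39_co.SeparatingOrder

open Finset

/-- The Euclidean plane. -/
abbrev Plane : Type := EuclideanSpace ℝ (Fin 2)

/-- A directed line in the plane, given by a point and a nonzero direction. -/
structure DLine where
  point : Plane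
  dir : Plane
  dir_ne : dir ≠ 0

/-- Positive on the left of the directed line, negative on its right, and zero on the line. -/
noncomputable def DLine.val (l : DLine) (x : Plane) : ℝ :=
  l.dir 0 * (x 1 - l.point 1) - l.dir 1 * (x 0 - l.point 0)

/-- The points of the line. -/
def DLine.carrier (l : DLine) : Set Plane := {x | l.val x = 0}

/-- General position: no point of `P` lies on a line of `L`. -/
def GeneralPosition (P : Finset Plane) (L : Finset DLine) : Prop :=
  ∀ x ∈ P, ∀ l ∈ L, x ∉ l.carrier

open Classical in
/-- The deficiency-one hull condition: for every `X ⊆ P`, at least `|X| - 1` lines of `L` meet the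
convex hull of `X`. -/
def HullCondition (P : Finset Plane) (L : Finset DLine) : Prop :=
  ∀ X ⊆ P, X.card - 1 ≤
    (L.filter fun l => (l.carrier ∩ convexHull ℝ (X : Set Plane)).Nonempty).card

/-- The line `l` separates the points `x` and `y`: they lie in different open half-planes. -/
def Separates (l : DLine) (x y : Plane) : Prop :=
  (0 < l.val x ∧ l.val y < 0) ∨ (l.val x < 0 ∧ 0 < l.val y)

/-- The line `l` meets the convex hull of a set only if the set has points on both sides. -/
theorem meets_hull {l : DLine} {X : Set Plane} (h : (l.carrier ∩ convexHull ℝ X).Nonempty)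
    (hX : ∀ x ∈ X, l.val x ≠ 0) : ∃ x ∈ X, ∃ y ∈ X, ¬ (0 < l.val x ↔ 0 < l.val y) := by
  by_contra hno
  push Not at hno
  obtain ⟨z, hz, hzX⟩ := h
  have hconv : ∀ s : ℝ, Convex ℝ {x : Plane | 0 < s * l.val x} := by
    intro s x hx y hy a b ha hb hab
    simp only [Set.mem_ofPred_eq] at hx hy ⊢
    have e : s * l.val (a • x + b • y) = a * (s * l.val x) + b * (s * l.val y) := by
      have hb' : b = 1 - a := by linarith
      subst hb'
      simp only [DLine.val, PiLp.add_apply, PiLp.smul_apply, smul_eq_mul]
      ring
    rw [e]
    rcases ha.eq_or_lt with h0 | h0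
    · have : b = 1 := by linarith
      rw [← h0, this]; linarith
    · have h1 := mul_pos h0 hx
      have h2 := mul_nonneg hb hy.le
      linarith
  rcases X.eq_empty_or_nonempty with h0 | ⟨x₀, hx₀⟩
  · rw [h0, convexHull_empty] at hzX
    exact hzX
  have hz0 : l.val z = 0 := hz
  by_cases hpos : 0 < l.val x₀
  · have hsub : X ⊆ {x : Plane | 0 < (1 : ℝ) * l.val x} := by
      intro x hx
      have := (hno x₀ hx₀ x hx).1 hpos
      simpa using this
    have := convexHull_min hsub (hconv 1) hzX
    simp only [Set.mem_ofPred_eq, hz0] at this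
    linarith
  · have hsub : X ⊆ {x : Plane | 0 < (-1 : ℝ) * l.val x} := by
      intro x hx
      have h1 : ¬ 0 < l.val x := fun h => hpos ((hno x₀ hx₀ x hx).2 h)
      have h2 := hX x hx
      have h3 : l.val x < 0 := lt_of_le_of_ne (not_lt.1 h1) h2
      simp only [Set.mem_ofPred_eq]
      linarith
    have := convexHull_min hsub (hconv (-1)) hzX
    simp only [Set.mem_ofPred_eq, hz0] at this
    linarith

/-- Let `P` be a set of `n` points and `L` a set of `n` directed lines in general position
satisfying the deficiency-one hull condition. Then there is an alternating ordering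
`p 0, l 0, p 1, l 1, …, p (n - 1), l (n - 1)` of all points and all lines such that the line `l i`
separates the points `p i` and `p (i + 1)`, for all `i < n - 1`. -/
theorem result : ∀ (n : ℕ) (P : Finset Plane) (L : Finset DLine), P.card = n → L.card = n →
    GeneralPosition P L → HullCondition P L →
    ∃ (p : Fin n ≃ P) (l : Fin n ≃ L), ∀ (i : ℕ) (h : i + 1 < n),
      Separates (l ⟨i, Nat.lt_of_succ_lt h⟩ : DLine) (p ⟨i, Nat.lt_of_succ_lt h⟩ : Plane)
        (p ⟨i + 1, h⟩ : Plane) := by
  classical
  intro n P L hP hL hgen hhull
  rcases n with _ | m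
  · refine ⟨Fintype.equivOfCardEq (by simp [hP]), Fintype.equivOfCardEq (by simp [hL]), ?_⟩
    intro i h
    omega
  have hall : ∀ X ⊆ P, X.Nonempty →
      X.card ≤ (X158.RainbowPath.splits (fun (l : DLine) x => decide (0 < l.val x)) L X).card
        + 1 := by
    intro X hX _
    have h1 := hhull X hX
    have h2 : (L.filter fun l => (l.carrier ∩ convexHull ℝ (X : Set Plane)).Nonempty) ⊆
        X158.RainbowPath.splits (fun (l : DLine) x => decide (0 < l.val x)) L X := by
      intro l hl
      obtain ⟨hlL, hne⟩ := Finset.mem_filter.1 hl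
      obtain ⟨x, hx, y, hy, hxy⟩ := meets_hull hne fun x hx => hgen x (hX hx) l hlL
      refine Finset.mem_filter.2 ⟨hlL, x, hx, y, hy, ?_⟩
      intro h
      apply hxy
      have := decide_eq_decide.1 h
      exact this
    have h3 := Finset.card_le_card h2
    omega
  obtain ⟨p, c, h1, h2, hc, hcL, hsep⟩ := X158.RainbowPath.exists_path hP hall
  -- the points
  set p' : Fin (m + 1) → P := fun i => ⟨p i, h1 i i.2⟩ with hp'
  have hp'inj : Function.Injective p' := by
    intro i j hij
    have : p i = p j := congrArg Subtype.val hij
    exact Fin.ext (h2 i i.2 j j.2 this)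
  have hp'bij : Function.Bijective p' := by
    rw [Fintype.bijective_iff_injective_and_card]
    exact ⟨hp'inj, by simp [hP]⟩
  -- the lines
  obtain ⟨l', hl'⟩ : ∃ l' : Fin (m + 1) ≃ L, ∀ i : Fin m, (l' i.castSucc : DLine) = c i := by
    have hcard : (L \ univ.image c).card = 1 := by
      rw [Finset.card_sdiff_of_subset, Finset.card_image_of_injective _ hc, hL]
      · simp
      · intro x hx
        obtain ⟨i, -, rfl⟩ := Finset.mem_image.1 hx
        exact hcL i
    obtain ⟨z, hz⟩ := Finset.card_eq_one.1 hcard
    have hz' : z ∈ L \ univ.image c := by rw [hz]; simp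
    rw [Finset.mem_sdiff] at hz'
    have hlast : ∀ i : Fin m, c i ≠ z := fun i h =>
      hz'.2 (Finset.mem_image.2 ⟨i, mem_univ i, h⟩)
    set f : Fin (m + 1) → L := Fin.lastCases ⟨z, hz'.1⟩ (fun i => ⟨c i, hcL i⟩) with hf
    have f1 : ∀ i : Fin m, f i.castSucc = ⟨c i, hcL i⟩ := fun i => Fin.lastCases_castSucc ..
    have f2 : f (Fin.last m) = ⟨z, hz'.1⟩ := Fin.lastCases_last ..
    have hfinj : Function.Injective f := by
      intro i j
      induction i using Fin.lastCases with
      | last =>
        induction j using Fin.lastCases with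
        | last => intro _; rfl
        | cast j =>
          intro h
          rw [f1, f2] at h
          exact absurd (congrArg Subtype.val h).symm (hlast j)
      | cast i =>
        induction j using Fin.lastCases with
        | last =>
          intro h
          rw [f1, f2] at h
          exact absurd (congrArg Subtype.val h) (hlast i)
        | cast j =>
          intro h
          rw [f1, f1] at h
          rw [hc (congrArg Subtype.val h)]
    have hfbij : Function.Bijective f := by
      rw [Fintype.bijective_iff_injective_and_card]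
      exact ⟨hfinj, by simp [hL]⟩
    refine ⟨Equiv.ofBijective f hfbij, fun i => ?_⟩
    rw [Equiv.ofBijective_apply, f1]
  refine ⟨Equiv.ofBijective p' hp'bij, l', fun i h => ?_⟩
  have him : i < m := by omega
  have e1 : (l' ⟨i, Nat.lt_of_succ_lt h⟩ : DLine) = c ⟨i, him⟩ := hl' ⟨i, him⟩
  rw [e1]
  show Separates (c ⟨i, him⟩) (p i) (p (i + 1))
  have hs := hsep ⟨i, him⟩
  simp only at hs
  have hs' : ¬ (0 < (c ⟨i, him⟩).val (p i) ↔ 0 < (c ⟨i, him⟩).val (p (i + 1))) := by
    intro h
    exact hs (decide_eq_decide.2 h)
  have g1 : (c ⟨i, him⟩).val (p i) ≠ 0 := hgen _ (h1 i (by omega)) _ (hcL _)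
  have g2 : (c ⟨i, him⟩).val (p (i + 1)) ≠ 0 := hgen _ (h1 (i + 1) (by omega)) _ (hcL _)
  unfold Separates
  rcases lt_or_gt_of_ne g1 with k1 | k1 <;> rcases lt_or_gt_of_ne g2 with k2 | k2
  · exact absurd (by constructor <;> intro <;> linarith) hs'
  · exact Or.inr ⟨k1, k2⟩
  · exact Or.inl ⟨k1, k2⟩
  · exact absurd (by constructor <;> intro <;> linarith) hs'

end Pool.Agent.Results.MP_719c39_co.SeparatingOrder
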